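import Pool.Agent.Q78.WI.Stm

/-!
# Project WI (helper78), jobs A4 and B (helper214)
-/

set_option autoImplicit false

open MeasureTheory ProbabilityTheory Filter Topology Set
open scoped NNReal InnerProductSpace Matrix MatrixOrder ComplexOrder

namespace Q214.WI

open Pool.Agent.Q78.WI

universe u

section

variable {d : ℕ}

/-- positive semidefinite matrices are of the form `Bᵀ B` -/
lemma exists_factor (ψ : Matrix (Fin d) (Fin d) ℝ) (h : ψ.PosSemidef) :
    ∃ B : Matrix (Fin d) (Fin d) ℝ, ψ = B.transpose * B := by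
  obtain ⟨B, hB⟩ := CStarAlgebra.nonneg_iff_eq_star_mul_self.mp h.nonneg
  refine ⟨B, ?_⟩
  rw [hB, Matrix.star_eq_conjTranspose, Matrix.conjTranspose_eq_transpose_of_trivial]

lemma factor_apply {ψ B : Matrix (Fin d) (Fin d) ℝ} (h : ψ = B.transpose * B) (i j : Fin d) :
    ψ i j = ∑ k, B k i * B k j := by
  rw [h, Matrix.mul_apply]
  rfl

variable {H : Type u} [NormedAddCommGroup H] [InnerProductSpace ℝ H]

lemma inner_expand (S : H →L[ℝ] H) (a c : Fin d → H) (x z : Fin d → ℝ) :
    ⟪S (∑ i, x i • a i), ∑ j, z j • c j⟫_ℝ = ∑ i, ∑ j, x i * z j * ⟪S (a i), c j⟫_ℝ := by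
  rw [map_sum, sum_inner]
  refine Finset.sum_congr rfl fun i _ => ?_
  rw [inner_sum]
  refine Finset.sum_congr rfl fun j _ => ?_
  rw [map_smul, real_inner_smul_left, real_inner_smul_right]
  ring

lemma one_sum {ψ B : Matrix (Fin d) (Fin d) ℝ} (h : ψ = B.transpose * B) (s : Fin d → Fin d → ℝ) :
    ∑ k, ∑ i, ∑ j, B k i * B k j * s i j = ∑ i, ∑ j, ψ i j * s i j := by
  rw [Finset.sum_comm]
  refine Finset.sum_congr rfl fun i _ => ?_
  rw [Finset.sum_comm]
  refine Finset.sum_congr rfl fun j _ => ?_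
  rw [factor_apply h, Finset.sum_mul]

lemma two_sum {ψ B : Matrix (Fin d) (Fin d) ℝ} (h : ψ = B.transpose * B)
    (s t : Fin d → Fin d → ℝ) :
    ∑ k, ∑ l, (∑ i, ∑ p, B k i * B l p * s i p) * (∑ j, ∑ q, B k j * B l q * t j q)
      = ∑ i, ∑ j, ∑ p, ∑ q, ψ i j * ψ p q * (s i p * t j q) := by
  have e1 : ∀ k l, (∑ i, ∑ p, B k i * B l p * s i p) * (∑ j, ∑ q, B k j * B l q * t j q)
      = ∑ i, ∑ j, ∑ p, ∑ q, (B k i * B k j) * ((B l p * B l q) * (s i p * t j q)) := by
    intro k l
    rw [Finset.sum_mul_sum]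
    refine Finset.sum_congr rfl fun i _ => Finset.sum_congr rfl fun j _ => ?_
    rw [Finset.sum_mul_sum]
    refine Finset.sum_congr rfl fun p _ => Finset.sum_congr rfl fun q _ => ?_
    ring
  simp only [e1]
  -- move the sum over `l` inside
  have e2 : ∀ k, ∑ l, ∑ i, ∑ j, ∑ p, ∑ q, (B k i * B k j) * ((B l p * B l q) * (s i p * t j q))
      = ∑ i, ∑ j, ∑ p, ∑ q, (B k i * B k j) * (ψ p q * (s i p * t j q)) := by
    intro k
    rw [Finset.sum_comm]
    refine Finset.sum_congr rfl fun i _ => ?_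
    rw [Finset.sum_comm]
    refine Finset.sum_congr rfl fun j _ => ?_
    rw [Finset.sum_comm]
    refine Finset.sum_congr rfl fun p _ => ?_
    rw [Finset.sum_comm]
    refine Finset.sum_congr rfl fun q _ => ?_
    rw [factor_apply h, Finset.sum_mul, Finset.mul_sum]
  simp only [e2]
  rw [Finset.sum_comm]
  refine Finset.sum_congr rfl fun i _ => ?_
  rw [Finset.sum_comm]
  refine Finset.sum_congr rfl fun j _ => ?_
  rw [Finset.sum_comm]
  refine Finset.sum_congr rfl fun p _ => ?_
  rw [Finset.sum_comm]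
  refine Finset.sum_congr rfl fun q _ => ?_
  rw [← Finset.sum_mul, ← factor_apply h]
  ring

end

theorem b : S_B.{u} := by
  intro H _ _ d ψ hψ
  obtain ⟨B, hB⟩ := exists_factor ψ hψ
  refine ⟨B, ?_⟩
  intro α Q S g y
  have hq : ∀ S : H →L[ℝ] H, tq ψ S g = quad S (fun k => ∑ i, B k i • g i) := by
    intro S
    unfold tq quad
    rw [← one_sum hB (fun i j => ⟪S (g i), g j⟫_ℝ)]
    refine Finset.sum_congr rfl fun k _ => ?_
    rw [inner_expand]
  refine ⟨hq S, ?_⟩
  unfold dr drift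
  rw [hq S, hq Q]
  have h1 : ∑ k, ⟪S (∑ i, B k i • y i), ∑ i, B k i • g i⟫_ℝ
      = ∑ i, ∑ j, ψ i j * ⟪S (y i), g j⟫_ℝ := by
    rw [← one_sum hB (fun i j => ⟪S (y i), g j⟫_ℝ)]
    refine Finset.sum_congr rfl fun k _ => ?_
    rw [inner_expand]
  have h2 : ∑ k, ∑ l, ⟪S (∑ i, B k i • g i), ∑ i, B l i • g i⟫_ℝ
        * ⟪Q (∑ i, B k i • g i), ∑ i, B l i • g i⟫_ℝ
      = ∑ i, ∑ j, ∑ k, ∑ l, ψ i j * ψ k l * (⟪S (g i), g k⟫_ℝ * ⟪Q (g j), g l⟫_ℝ) := by
    rw [← two_sum hB (fun i j => ⟪S (g i), g j⟫_ℝ) (fun i j => ⟪Q (g i), g j⟫_ℝ)]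
    refine Finset.sum_congr rfl fun k _ => Finset.sum_congr rfl fun l _ => ?_
    rw [inner_expand, inner_expand]
  rw [h1, h2]
  rfl

theorem a4 : S_A4.{u} := by
  intro H _ _ _ T hT Q d g y hgen hpos
  obtain ⟨B, hB⟩ := exists_factor _ hpos.posSemidef
  have hBu : IsUnit B := by
    have h1 := hpos.isUnit
    rw [hB] at h1
    rw [Matrix.isUnit_iff_isUnit_det] at h1 ⊢
    rw [Matrix.det_mul, Matrix.det_transpose] at h1
    exact isUnit_of_mul_isUnit_left h1
  have hBd : IsUnit B.det := (Matrix.isUnit_iff_isUnit_det _).1 hBu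
  set C : Matrix (Fin d) (Fin d) ℝ := (B.transpose)⁻¹ with hC
  refine ⟨fun i => ∑ j, C i j • g j, fun i => ∑ j, C i j • y j, ?_, ?_⟩
  · intro i
    have h1 : ∀ j ∈ (Finset.univ : Finset (Fin d)),
        Tendsto (fun t : ℝ => C i j • (t⁻¹ • (T t (g j) - g j))) (𝓝[>] 0) (𝓝 (C i j • y j)) :=
      fun j _ => (hgen j).const_smul _
    have h2 := tendsto_finsetSum _ h1
    refine h2.congr fun t => ?_
    rw [map_sum, ← Finset.sum_sub_distrib, Finset.smul_sum]
    refine Finset.sum_congr rfl fun j _ => ?_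
    rw [map_smul, ← smul_sub, smul_comm]
  · have hint : ∀ k l : Fin d, IntervalIntegrable (fun v => ⟪Q (T v (g k)), T v (g l)⟫_ℝ)
        volume 0 1 := by
      intro k l
      apply ContinuousOn.intervalIntegrable
      rw [uIcc_of_le zero_le_one]
      have h1 : ∀ x : H, ContinuousOn (fun t => T t x) (Icc 0 1) := fun x =>
        (hT.cont x).mono fun t ht => ht.1
      exact (Q.continuous.comp_continuousOn (h1 (g k))).inner (h1 (g l))
    have key : gram T Q (fun i => ∑ j, C i j • g j) 1 = C * gram T Q g 1 * C.transpose := by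
      ext i j
      have e1 : ∀ v, ⟪Q (T v (∑ k, C i k • g k)), T v (∑ l, C j l • g l)⟫_ℝ
          = ∑ k, ∑ l, C i k * C j l * ⟪Q (T v (g k)), T v (g l)⟫_ℝ := by
        intro v
        have e : T v (∑ k, C i k • g k) = ∑ k, C i k • T v (g k) := by
          rw [map_sum]
          exact Finset.sum_congr rfl fun k _ => map_smul _ _ _
        have e' : T v (∑ k, C j k • g k) = ∑ k, C j k • T v (g k) := by
          rw [map_sum]
          exact Finset.sum_congr rfl fun k _ => map_smul _ _ _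
        rw [e, e', inner_expand]
      have e2 : ∫ v in (0 : ℝ)..1, ⟪Q (T v (∑ k, C i k • g k)), T v (∑ l, C j l • g l)⟫_ℝ
          = ∑ k, ∑ l, C i k * C j l * ∫ v in (0 : ℝ)..1, ⟪Q (T v (g k)), T v (g l)⟫_ℝ := by
        simp only [e1]
        rw [intervalIntegral.integral_finsetSum]
        · refine Finset.sum_congr rfl fun k _ => ?_
          rw [intervalIntegral.integral_finsetSum]
          · refine Finset.sum_congr rfl fun l _ => ?_
            rw [intervalIntegral.integral_const_mul]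
          · intro l _
            exact (hint k l).const_mul _
        · intro k _
          have e3 : (fun v => ∑ l, C i k * C j l * ⟪Q (T v (g k)), T v (g l)⟫_ℝ)
              = ∑ l, fun v => C i k * C j l * ⟪Q (T v (g k)), T v (g l)⟫_ℝ := by
            funext v
            simp only [Finset.sum_apply]
          rw [e3]
          exact IntervalIntegrable.sum _ fun l _ => (hint k l).const_mul _
      rw [Matrix.mul_apply]
      simp only [gram, Matrix.of_apply, Matrix.mul_apply, Matrix.transpose_apply, e2,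
        Finset.mul_sum, Finset.sum_mul]
      rw [Finset.sum_comm]
      refine Finset.sum_congr rfl fun k _ => Finset.sum_congr rfl fun l _ => ?_
      ring
    rw [key, hB, hC]
    rw [Matrix.transpose_nonsing_inv, Matrix.transpose_transpose]
    have hBt : IsUnit B.transpose.det := by rwa [Matrix.det_transpose]
    rw [← Matrix.mul_assoc, Matrix.nonsing_inv_mul _ hBt, Matrix.one_mul,
      Matrix.mul_nonsing_inv _ hBd]

end Q214.WI
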